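import Pool.Agent.Lib.FT.SpecF

/-!
# C44, F2: approximation by polynomials in the generators (helper53)
-/

set_option autoImplicit false

open MeasureTheory

noncomputable section

namespace Pool.Agent.FT

/-- the approximation property -/
private def ApPr {d : ℕ} {D : Type} [CStarAlgebra D] (ι : C(Cube d, ℂ) →⋆ₐ[ℂ] D) (v : ℕ → D)
    (g : D) : Prop :=
  ∀ ε : ℝ, 0 < ε → ∃ (M : ℕ) (δ : ℝ), 0 < δ ∧
      ∀ y : Fin d → D, (∀ m, ‖ι (xc m) - y m‖ ≤ δ) →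
        ∀ E : StarSubalgebra ℂ D, (∀ m, y m ∈ E) → (∀ k, k < M → v k ∈ E) → ∃ e ∈ E, ‖g - e‖ ≤ ε

private theorem ApPr.two {d : ℕ} {D : Type} [CStarAlgebra D] {ι : C(Cube d, ℂ) →⋆ₐ[ℂ] D}
    {v : ℕ → D} {a b : D} (ha : ApPr ι v a) (hb : ApPr ι v b) (ε : ℝ) (hε : 0 < ε) :
    ∃ (M : ℕ) (δ : ℝ), 0 < δ ∧
      ∀ y : Fin d → D, (∀ m, ‖ι (xc m) - y m‖ ≤ δ) →
        ∀ E : StarSubalgebra ℂ D, (∀ m, y m ∈ E) → (∀ k, k < M → v k ∈ E) →
          ∃ e ∈ E, ∃ e' ∈ E, ‖a - e‖ ≤ ε ∧ ‖b - e'‖ ≤ ε := by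
  obtain ⟨M, δ, hδ, h⟩ := ha ε hε
  obtain ⟨M', δ', hδ', h'⟩ := hb ε hε
  refine ⟨max M M', min δ δ', lt_min hδ hδ', ?_⟩
  intro y hy E hE hv
  obtain ⟨e, he, he2⟩ := h y (fun m => (hy m).trans (min_le_left _ _)) E hE
    (fun k hk => hv k (lt_of_lt_of_le hk (le_max_left _ _)))
  obtain ⟨e', he', he2'⟩ := h' y (fun m => (hy m).trans (min_le_right _ _)) E hE
    (fun k hk => hv k (lt_of_lt_of_le hk (le_max_right _ _)))
  exact ⟨e, he, e', he', he2, he2'⟩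

private theorem ApPr.add {d : ℕ} {D : Type} [CStarAlgebra D] {ι : C(Cube d, ℂ) →⋆ₐ[ℂ] D}
    {v : ℕ → D} {a b : D} (ha : ApPr ι v a) (hb : ApPr ι v b) : ApPr ι v (a + b) := by
  intro ε hε
  obtain ⟨M, δ, hδ, h⟩ := ha.two hb (ε / 2) (half_pos hε)
  refine ⟨M, δ, hδ, ?_⟩
  intro y hy E hE hv
  obtain ⟨e, he, e', he', h1, h2⟩ := h y hy E hE hv
  refine ⟨e + e', add_mem he he', ?_⟩
  have : a + b - (e + e') = (a - e) + (b - e') := by abel
  rw [this]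
  exact (norm_add_le _ _).trans (by linarith)

private theorem ApPr.mul {d : ℕ} {D : Type} [CStarAlgebra D] {ι : C(Cube d, ℂ) →⋆ₐ[ℂ] D}
    {v : ℕ → D} {a b : D} (ha : ApPr ι v a) (hb : ApPr ι v b) : ApPr ι v (a * b) := by
  intro ε hε
  have hK : 0 < ‖a‖ + ‖b‖ + 1 := by positivity
  obtain ⟨M, δ, hδ, h⟩ := ha.two hb (min 1 (ε / (‖a‖ + ‖b‖ + 1)))
    (lt_min one_pos (div_pos hε hK))
  refine ⟨M, δ, hδ, ?_⟩
  intro y hy E hE hv
  obtain ⟨e, he, e', he', h1, h2⟩ := h y hy E hE hv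
  refine ⟨e * e', mul_mem he he', ?_⟩
  have hdec : a * b - e * e' = a * (b - e') + (a - e) * e' := by
    rw [mul_sub, sub_mul]; abel
  have he'n : ‖e'‖ ≤ ‖b‖ + 1 := by
    have : e' = b - (b - e') := by abel
    rw [this]
    refine (norm_sub_le _ _).trans ?_
    have := h2.trans (min_le_left _ _)
    linarith
  have h1' : ‖a - e‖ ≤ ε / (‖a‖ + ‖b‖ + 1) := h1.trans (min_le_right _ _)
  have h2' : ‖b - e'‖ ≤ ε / (‖a‖ + ‖b‖ + 1) := h2.trans (min_le_right _ _)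
  have hq : 0 ≤ ε / (‖a‖ + ‖b‖ + 1) := (div_pos hε hK).le
  calc ‖a * b - e * e'‖ ≤ ‖a * (b - e')‖ + ‖(a - e) * e'‖ := by
        rw [hdec]; exact norm_add_le _ _
    _ ≤ ‖a‖ * ‖b - e'‖ + ‖a - e‖ * ‖e'‖ := add_le_add (norm_mul_le _ _) (norm_mul_le _ _)
    _ ≤ ‖a‖ * (ε / (‖a‖ + ‖b‖ + 1)) + (ε / (‖a‖ + ‖b‖ + 1)) * (‖b‖ + 1) :=
        add_le_add (mul_le_mul_of_nonneg_left h2' (norm_nonneg _))
          (mul_le_mul h1' he'n (norm_nonneg _) hq)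
    _ = ε := by field_simp; ring

private theorem ApPr.alg {d : ℕ} {D : Type} [CStarAlgebra D] (ι : C(Cube d, ℂ) →⋆ₐ[ℂ] D)
    (v : ℕ → D) (r : ℂ) : ApPr ι v (algebraMap ℂ D r) := by
  intro ε hε
  refine ⟨0, 1, one_pos, ?_⟩
  intro y _ E _ _
  exact ⟨algebraMap ℂ D r, algebraMap_mem E r, by simpa using hε.le⟩

private theorem ApPr.star' {d : ℕ} {D : Type} [CStarAlgebra D] {ι : C(Cube d, ℂ) →⋆ₐ[ℂ] D}
    {v : ℕ → D} {a : D} (ha : ApPr ι v a) : ApPr ι v (star a) := by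
  intro ε hε
  obtain ⟨M, δ, hδ, h⟩ := ha ε hε
  refine ⟨M, δ, hδ, ?_⟩
  intro y hy E hE hv
  obtain ⟨e, he, h1⟩ := h y hy E hE hv
  refine ⟨star e, star_mem he, ?_⟩
  rw [← star_sub, norm_star]
  exact h1

theorem pAPX (hSW : S_SW) : S_APX := by
  intro d D _ ι v htop g ε hε
  let H : StarSubalgebra ℂ D :=
    { carrier := {a | ApPr ι v a}
      mul_mem' := fun ha hb => ApPr.mul ha hb
      add_mem' := fun ha hb => ApPr.add ha hb
      algebraMap_mem' := fun r => ApPr.alg ι v r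
      star_mem' := fun ha => ApPr.star' ha }
  have hmem : ∀ a, a ∈ H ↔ ApPr ι v a := fun a => Iff.rfl
  have hcl : IsClosed (H : Set D) := by
    refine isClosed_of_closure_subset ?_
    intro a ha
    rw [SetLike.mem_coe, hmem]
    intro ε' hε'
    obtain ⟨b, hb, hab⟩ := Metric.mem_closure_iff.1 ha (ε' / 2) (half_pos hε')
    obtain ⟨M, δ, hδ, h⟩ := (hmem b).1 hb (ε' / 2) (half_pos hε')
    refine ⟨M, δ, hδ, ?_⟩
    intro y hy E hE hv
    obtain ⟨e, he, h1⟩ := h y hy E hE hv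
    refine ⟨e, he, ?_⟩
    have : a - e = (a - b) + (b - e) := by abel
    rw [this]
    rw [dist_eq_norm] at hab
    exact (norm_add_le _ _).trans (by linarith)
  have hι : ι.range ≤ H := by
    refine hSW d D ι H hcl ?_
    intro m
    rw [hmem]
    intro ε' hε'
    refine ⟨0, ε', hε', ?_⟩
    intro y hy E hE _
    exact ⟨y m, hE m, hy m⟩
  have hv : StarAlgebra.adjoin ℂ (Set.range v) ≤ H := by
    refine StarAlgebra.adjoin_le ?_
    rintro _ ⟨k, rfl⟩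
    rw [SetLike.mem_coe, hmem]
    intro ε' hε'
    refine ⟨k + 1, 1, one_pos, ?_⟩
    intro y _ E _ hv
    exact ⟨v k, hv k (Nat.lt_succ_self k), by simpa using hε'.le⟩
  have htop' : (⊤ : StarSubalgebra ℂ D) ≤ H := by
    rw [← htop]
    exact StarSubalgebra.topologicalClosure_minimal (sup_le hι hv) hcl
  have hg : g ∈ H := htop' trivial
  exact (hmem g).1 hg ε hε

end Pool.Agent.FT
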