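import Pool.Agent.Lib.FT.SpecF

/-!
# C44, F4: directed union (helper53)
-/

set_option autoImplicit false

open MeasureTheory

noncomputable section

namespace Pool.Agent.FT

theorem pDIR : S_DIR := by
  intro D _ x y hy ε hε
  have hy' : y ∈ closure ((StarAlgebra.adjoin ℂ (Set.range x) : StarSubalgebra ℂ D) : Set D) := hy
  obtain ⟨y', hy1, hy2⟩ := Metric.mem_closure_iff.1 hy' ε hε
  have hmono : ∀ N N' : ℕ, N ≤ N' → StarAlgebra.adjoin ℂ {a : D | ∃ k, k < N ∧ a = x k} ≤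
      StarAlgebra.adjoin ℂ {a : D | ∃ k, k < N' ∧ a = x k} := by
    intro N N' h
    refine StarAlgebra.adjoin_mono ?_
    rintro a ⟨k, hk, rfl⟩
    exact ⟨k, lt_of_lt_of_le hk h, rfl⟩
  have key : ∀ z ∈ StarAlgebra.adjoin ℂ (Set.range x),
      ∃ N : ℕ, z ∈ StarAlgebra.adjoin ℂ {a : D | ∃ k, k < N ∧ a = x k} := by
    intro z hz
    induction hz using StarAlgebra.adjoin_induction with
    | mem a ha =>
      obtain ⟨k, rfl⟩ := ha
      exact ⟨k + 1, StarAlgebra.subset_adjoin ℂ _ ⟨k, Nat.lt_succ_self k, rfl⟩⟩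
    | algebraMap r => exact ⟨0, algebraMap_mem _ r⟩
    | add a b _ _ ha hb =>
      obtain ⟨N, hN⟩ := ha
      obtain ⟨N', hN'⟩ := hb
      exact ⟨max N N', add_mem (hmono _ _ (le_max_left _ _) hN) (hmono _ _ (le_max_right _ _) hN')⟩
    | mul a b _ _ ha hb =>
      obtain ⟨N, hN⟩ := ha
      obtain ⟨N', hN'⟩ := hb
      exact ⟨max N N', mul_mem (hmono _ _ (le_max_left _ _) hN) (hmono _ _ (le_max_right _ _) hN')⟩
    | star a _ ha =>
      obtain ⟨N, hN⟩ := ha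
      exact ⟨N, star_mem hN⟩
  obtain ⟨N, hN⟩ := key y' hy1
  refine ⟨N, y', hN, ?_⟩
  rw [← dist_eq_norm]
  exact hy2.le

end Pool.Agent.FT
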