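import Pool.Agent.Lib.FT.SpecF

/-!
# C44, F5: the conjugated system generates (helper53)
-/

set_option autoImplicit false

open MeasureTheory

noncomputable section

namespace Pool.Agent.FT

/-- conjugation by a unitary -/
private def genAd {D : Type} [CStarAlgebra D] (w : D) (h1 : star w * w = 1) (h2 : w * star w = 1) :
    D →⋆ₐ[ℂ] D where
  toFun x := star w * x * w
  map_one' := by rw [mul_one, h1]
  map_mul' x y := by
    have : star w * x * w * (star w * y * w) = star w * x * (w * star w) * y * w := by
      simp only [mul_assoc]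
    rw [this, h2, mul_one]
    simp only [mul_assoc]
  map_zero' := by rw [mul_zero, zero_mul]
  map_add' x y := by rw [mul_add, add_mul]
  commutes' r := by
    rw [← Algebra.commutes, mul_assoc, h1, mul_one]
  map_star' x := by
    simp only [star_mul, star_star, mul_assoc]

theorem pGEN : S_GEN := by
  intro d D _ ι ι' v v' M w hw h1 h2 hι' hv' htop
  let H : StarSubalgebra ℂ D :=
    (ι'.range ⊔ StarAlgebra.adjoin ℂ (Set.range v')).topologicalClosure
  have hHc : IsClosed (H : Set D) := StarSubalgebra.isClosed_topologicalClosure _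
  have hιH : ∀ f, ι' f ∈ H := fun f =>
    (le_sup_left.trans (StarSubalgebra.le_topologicalClosure _)) (⟨f, rfl⟩ : ι' f ∈ ι'.range)
  have hvH : ∀ k, v' k ∈ H := fun k =>
    (le_sup_right.trans (StarSubalgebra.le_topologicalClosure _))
      (StarAlgebra.subset_adjoin ℂ (Set.range v') ⟨k, rfl⟩)
  let ρ : D →⋆ₐ[ℂ] D := genAd w h1 h2
  have hρ : ∀ x, ρ x = star w * x * w := fun _ => rfl
  have hc : Continuous ρ := by
    change Continuous fun x => star w * x * w
    fun_prop
  have hH1c : IsClosed (H.comap ρ : Set D) := hHc.preimage hc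
  have hG1 : GM ι v M ≤ H.comap ρ := by
    refine StarSubalgebra.topologicalClosure_minimal (sup_le ?_ ?_) hH1c
    · rintro _ ⟨f, rfl⟩
      change star w * ι f * w ∈ H
      rw [← hι' f]
      exact hιH f
    · refine StarAlgebra.adjoin_le ?_
      rintro x ⟨k, hk, rfl⟩
      change star w * v k * w ∈ H
      have e := hv' k
      rw [if_neg (not_lt.2 hk)] at e
      rw [← e]
      exact hvH k
  have hG : ∀ x ∈ GM ι v M, x ∈ H := by
    intro x hx
    have h3 : w * x * star w ∈ GM ι v M := mul_mem (mul_mem hw hx) (star_mem hw)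
    have h4 : star w * (w * x * star w) * w ∈ H := hG1 h3
    have h5 : star w * (w * x * star w) * w = x := by
      calc star w * (w * x * star w) * w = (star w * w) * x * (star w * w) := by
            simp only [mul_assoc]
        _ = x := by rw [h1, one_mul, mul_one]
    rwa [h5] at h4
  have hιG : ∀ f, ι f ∈ H := fun f => hG _
    ((le_sup_left.trans (StarSubalgebra.le_topologicalClosure _)) (⟨f, rfl⟩ : ι f ∈ ι.range))
  have hvG : ∀ k, v k ∈ H := by
    intro k
    by_cases hk : k < M
    · have e := hv' k
      rw [if_pos hk] at e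
      rw [← e]
      exact hvH k
    · exact hG _ ((le_sup_right.trans (StarSubalgebra.le_topologicalClosure _))
        (StarAlgebra.subset_adjoin ℂ _ ⟨k, not_lt.1 hk, rfl⟩))
  refine top_le_iff.1 ?_
  rw [← htop]
  refine StarSubalgebra.topologicalClosure_minimal (sup_le ?_ ?_) hHc
  · rintro _ ⟨f, rfl⟩
    exact hιG f
  · refine StarAlgebra.adjoin_le ?_
    rintro _ ⟨k, rfl⟩
    exact hvG k

end Pool.Agent.FT
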