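import Pool.Agent.Lib.FT.SpecF

/-!
# C44, F7: iteration (helper53)
-/

set_option autoImplicit false

open MeasureTheory

noncomputable section

namespace Pool.Agent.FT

/-- A state of the iteration: a generating system and a number. -/
private structure ItSt {d : ℕ} {D : Type} [CStarAlgebra D] (τ : D →ₗ[ℂ] ℂ) where
  i : C(Cube d, ℂ) →⋆ₐ[ℂ] D
  v : ℕ → D
  N : ℕ
  sys : Sys τ i v
  gen : (i.range ⊔ StarAlgebra.adjoin ℂ (Set.range v)).topologicalClosure = ⊤

/-- one step of the iteration -/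
private def ItStep {d : ℕ} {D : Type} [CStarAlgebra D] (τ : D →ₗ[ℂ] ℂ) (F : Finset D) (ε : ℝ)
    (s s' : ItSt (d := d) τ) : Prop :=
  (∀ k, k < s.N → s'.v k = s.v k) ∧ s.N < s'.N ∧
    ∀ g ∈ F, ∃ e ∈ StarAlgebra.adjoin ℂ {a : D | ∃ k, k < s'.N ∧ a = s'.v k}, ‖g - e‖ ≤ ε

private theorem it_exists (hSTP : S_STP) {d : ℕ} {D : Type} [CStarAlgebra D] (τ : D →ₗ[ℂ] ℂ)
    (F : Finset D) (ε : ℝ) (hε : 0 < ε) (s : ItSt (d := d) τ) : ∃ s', ItStep τ F ε s s' := by
  obtain ⟨ι', v', h1, h2, h3, N', h4⟩ := hSTP d D τ s.i s.v s.sys s.gen F ε s.N hε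
  refine ⟨⟨ι', v', max N' (s.N + 1), h1, h2⟩, h3, lt_of_lt_of_le (Nat.lt_succ_self _)
    (le_max_right _ _), ?_⟩
  intro g hg
  obtain ⟨e, he, h5⟩ := h4 g hg
  refine ⟨e, ?_, h5⟩
  refine (StarAlgebra.adjoin_mono ?_ : _ ≤ _) he
  rintro a ⟨k, hk, rfl⟩
  exact ⟨k, lt_of_lt_of_le hk (le_max_left _ _), rfl⟩

theorem pITR (hSTP : S_STP) (hSW : S_SW) : S_ITR := by
  intro d D _ τ ι v hsys hgen
  classical
  let F : ℕ → Finset D := fun n =>
    (Finset.univ.image fun m : Fin d => ι (xc m)) ∪ (Finset.range (n + 1)).image v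
  have hstep : ∀ (n : ℕ) (s : ItSt (d := d) τ), ∃ s', ItStep τ (F n) (1 / ((n : ℝ) + 1)) s s' :=
    fun n s => it_exists hSTP τ (F n) _ (by positivity) s
  choose nx hnx using hstep
  let s : ℕ → ItSt (d := d) τ := fun n => Nat.rec ⟨ι, v, 0, hsys, hgen⟩ (fun n s => nx n s) n
  have hs : ∀ n, s (n + 1) = nx n (s n) := fun n => rfl
  have hS : ∀ n, ItStep τ (F n) (1 / ((n : ℝ) + 1)) (s n) (s (n + 1)) := by
    intro n
    rw [hs n]
    exact hnx n (s n)
  clear_value s
  have hN : ∀ n, n ≤ (s n).N := by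
    intro n
    induction n with
    | zero => exact Nat.zero_le _
    | succ n ih => exact lt_of_le_of_lt ih (hS n).2.1
  have hmono : ∀ n m, n ≤ m → (s n).N ≤ (s m).N := by
    intro n m hnm
    induction m, hnm using Nat.le_induction with
    | base => exact le_rfl
    | succ m _ ih => exact ih.trans (hS m).2.1.le
  have hcoh : ∀ n m, n ≤ m → ∀ k, k < (s n).N → (s m).v k = (s n).v k := by
    intro n m hnm
    induction m, hnm using Nat.le_induction with
    | base => exact fun k _ => rfl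
    | succ m hnm ih =>
      intro k hk
      rw [(hS m).1 k (lt_of_lt_of_le hk (hmono n m hnm)), ih k hk]
  let x : ℕ → D := fun k => (s (k + 1)).v k
  have hx : ∀ n k, k < (s n).N → (s n).v k = x k := by
    intro n k hk
    rcases le_total n (k + 1) with h | h
    · exact (hcoh n (k + 1) h k hk).symm
    · exact hcoh (k + 1) n h k (lt_of_lt_of_le (Nat.lt_succ_self k) (hN (k + 1)))
  have hx0 : ∀ k, x k = (s (k + 1)).v k := fun k => rfl
  clear_value x
  refine ⟨x, ?_, ?_, ?_, ?_, ?_⟩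
  · intro k
    rw [hx0]
    exact (s (k + 1)).sys.sa k
  · intro k
    rw [hx0]
    exact (s (k + 1)).sys.sq k
  · intro k
    rw [hx0]
    exact (s (k + 1)).sys.tz k
  · intro l hl hc hm
    -- a number larger than all indices
    obtain ⟨n, hn⟩ : ∃ n : ℕ, ∀ p ∈ l, p.1 < n := by
      refine ⟨(l.map Prod.fst).sum + 1, ?_⟩
      intro p hp
      exact Nat.lt_succ_of_le (List.single_le_sum (fun _ _ => Nat.zero_le _) _
        (List.mem_map.2 ⟨p, hp, rfl⟩))
    have h1 := (s n).sys.free (l.map fun p => (some p.1, p.2)) (by simpa using hl) (by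
      rw [List.map_map]
      have e : (Prod.fst ∘ fun p : ℕ × D => (some p.1, p.2)) = some ∘ Prod.fst := rfl
      rw [e, ← List.map_map, List.isChain_map]
      exact hc.imp fun a b hab h => hab (Option.some_injective _ h)) (by
      intro p hp
      rw [List.mem_map] at hp
      obtain ⟨q, hq, rfl⟩ := hp
      refine ⟨?_, (hm q hq).2⟩
      have h2 := (hm q hq).1
      simp only [Option.elim_some]
      rw [hx n q.1 (lt_of_lt_of_le (hn q hq) (hN n))]
      exact h2)
    rw [List.map_map] at h1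
    exact h1
  · -- generation
    let H : StarSubalgebra ℂ D := (StarAlgebra.adjoin ℂ (Set.range x)).topologicalClosure
    have hHc : IsClosed (H : Set D) := StarSubalgebra.isClosed_topologicalClosure _
    have key : ∀ g : D, (∃ n₀ : ℕ, ∀ n, n₀ ≤ n → g ∈ F n) → g ∈ H := by
      rintro g ⟨n₀, hg⟩
      have hcl : g ∈ closure (H : Set D) := by
        rw [Metric.mem_closure_iff]
        intro ε hε
        obtain ⟨n₁, hn₁⟩ := exists_nat_one_div_lt hε
        let n := max n₀ n₁
        obtain ⟨e, he, h3⟩ := (hS n).2.2 g (hg n (le_max_left _ _))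
        refine ⟨e, ?_, ?_⟩
        · refine (StarSubalgebra.le_topologicalClosure _) ?_
          refine (StarAlgebra.adjoin_mono ?_ : _ ≤ _) he
          rintro a ⟨k, hk, rfl⟩
          exact ⟨k, (hx (n + 1) k hk).symm⟩
        · rw [dist_eq_norm]
          refine lt_of_le_of_lt h3 (lt_of_le_of_lt ?_ hn₁)
          refine one_div_le_one_div_of_le (by positivity) ?_
          have : (n₁ : ℝ) ≤ (n : ℝ) := by exact_mod_cast le_max_right _ _
          linarith
      rwa [hHc.closure_eq] at hcl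
    have hι : ι.range ≤ H := by
      refine hSW d D ι H hHc ?_
      intro m
      refine key _ ⟨0, fun n _ => ?_⟩
      exact Finset.mem_union_left _ (Finset.mem_image.2 ⟨m, Finset.mem_univ _, rfl⟩)
    have hv : ∀ k, v k ∈ H := by
      intro k
      refine key _ ⟨k, fun n hn => ?_⟩
      exact Finset.mem_union_right _ (Finset.mem_image.2
        ⟨k, Finset.mem_range.2 (Nat.lt_succ_of_le hn), rfl⟩)
    change H = ⊤
    refine top_le_iff.1 ?_
    rw [← hgen]
    refine StarSubalgebra.topologicalClosure_minimal (sup_le hι ?_) hHc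
    refine StarAlgebra.adjoin_le ?_
    rintro _ ⟨k, rfl⟩
    exact hv k

end Pool.Agent.FT
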