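import Pool.Agent.Lib.FT.SpecF

/-!
# C44, F6: the step (helper3)
-/

set_option autoImplicit false

namespace Pool.Agent.FT

/-- conjugation by a unitary -/
private def stpAd {D : Type} [CStarAlgebra D] (w : D) (h1 : star w * w = 1) (h2 : w * star w = 1) :
    D →⋆ₐ[ℂ] D where
  toFun x := star w * x * w
  map_one' := by rw [mul_one, h1]
  map_mul' x y := by
    have : star w * x * w * (star w * y * w) = star w * x * (w * star w) * y * w := by
      simp only [mul_assoc]
    rw [this, h2, mul_one]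
    simp only [mul_assoc]
  map_zero' := by rw [mul_zero, zero_mul]
  map_add' x y := by rw [mul_add, add_mul]
  commutes' r := by
    rw [← Algebra.commutes r (star w), mul_assoc, h1, mul_one]
  map_star' x := by
    rw [star_mul, star_mul, star_star, mul_assoc]

private theorem stp_norm {D : Type} [CStarAlgebra D] (w a c : D) (h1 : star w * w = 1)
    (h2 : w * star w = 1) : ‖a - star w * c * w‖ = ‖w * a * star w - c‖ := by
  have hw : w ∈ unitary D := ⟨h1, h2⟩
  have hw' : star w ∈ unitary D := Unitary.star_mem hw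
  have : a - star w * c * w = star w * (w * a * star w - c) * w := by
    have e : star w * (w * a * star w) * w = (star w * w) * a * (star w * w) := by
      simp only [mul_assoc]
    rw [mul_sub, sub_mul, e, h1, one_mul, mul_one]
  rw [this, CStarRing.norm_mul_mem_unitary _ hw, CStarRing.norm_mem_unitary_mul _ hw']

theorem pSTP (hX : S_APX) (hT : S_TAIL) (hS : S_STAR) (hC : S_CONJ) (hG : S_GEN) (hD : S_DIR) :
    S_STP := by
  intro d D _ τ ι v h hgen F ε N hε
  choose Mf δf hδf happ using fun g => hX d D ι v hgen g (ε / 2) (half_pos hε)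
  obtain ⟨δ, hδ, hδF⟩ : ∃ δ : ℝ, 0 < δ ∧ ∀ g ∈ F, δ ≤ δf g := by
    classical
    induction F using Finset.induction_on with
    | empty => exact ⟨1, one_pos, by simp⟩
    | insert a s _ ih =>
      obtain ⟨δ, h0, hs⟩ := ih
      refine ⟨min (δf a) δ, lt_min (hδf a) h0, ?_⟩
      intro g hg
      rcases Finset.mem_insert.1 hg with rfl | hg
      · exact min_le_left _ _
      · exact (min_le_right _ _).trans (hs g hg)
  obtain ⟨M, hNM, hMF⟩ : ∃ M : ℕ, N ≤ M ∧ ∀ g ∈ F, Mf g ≤ M :=
    ⟨max N (F.sup Mf), le_max_left _ _, fun g hg => (Finset.le_sup hg).trans (le_max_right _ _)⟩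
  obtain ⟨hsys, hGM⟩ := hT d D τ ι v h M
  obtain ⟨w, hw, h1, h2, c, hc, hwc⟩ := hS d D τ ι (fun k => v (M + k)) hsys δ hδ
  have hwM : w ∈ GM ι v M := hGM hw
  obtain ⟨ι', hι', hsys'⟩ := hC d D τ ι v h M w hwM h1 h2
  let v' : ℕ → D := fun k => if k < M then v k else star w * v k * w
  have hv'l : ∀ k, k < M → v' k = v k := fun k hk => if_pos hk
  have hv'g : ∀ k, M ≤ k → v' k = star w * v k * w := fun k hk => if_neg (not_lt.2 hk)
  have hgen' := hG d D ι ι' v v' M w hwM h1 h2 hι' (fun k => rfl) hgen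
  refine ⟨ι', v', hsys', hgen', fun k hk => hv'l k (lt_of_lt_of_le hk hNM), ?_⟩
  let E : StarSubalgebra ℂ D := (StarAlgebra.adjoin ℂ (Set.range v')).topologicalClosure
  have hEcl : IsClosed (E : Set D) := StarSubalgebra.isClosed_topologicalClosure _
  have hvE : ∀ k, v' k ∈ E := fun k =>
    StarSubalgebra.le_topologicalClosure _ (StarAlgebra.subset_adjoin ℂ _ ⟨k, rfl⟩)
  have hyE : ∀ m, star w * c m * w ∈ E := by
    intro m
    have hle : (StarAlgebra.adjoin ℂ (Set.range (fun k => v (M + k)))).topologicalClosure ≤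
        E.comap (stpAd w h1 h2) := by
      refine StarSubalgebra.topologicalClosure_minimal ?_ ?_
      · refine StarAlgebra.adjoin_le ?_
        rintro x ⟨k, rfl⟩
        change star w * v (M + k) * w ∈ E
        rw [← hv'g (M + k) (Nat.le_add_right _ _)]
        exact hvE _
      · have hcont : Continuous (fun x : D => star w * x * w) := by fun_prop
        exact hEcl.preimage hcont
    exact hle (hc m)
  have hy : ∀ m, ‖ι (xc m) - star w * c m * w‖ ≤ δ := fun m => by
    rw [stp_norm w _ _ h1 h2]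
    exact hwc m
  have key : ∀ g, ∃ n : ℕ, g ∈ F →
      ∃ e ∈ StarAlgebra.adjoin ℂ {a : D | ∃ k, k < n ∧ a = v' k}, ‖g - e‖ ≤ ε := by
    intro g
    by_cases hg : g ∈ F
    · obtain ⟨e, he, hge⟩ := happ g (fun m => star w * c m * w)
        (fun m => (hy m).trans (hδF g hg)) E hyE
        (fun k hk => by rw [← hv'l k (lt_of_lt_of_le hk (hMF g hg))]; exact hvE k)
      obtain ⟨n, e', he', hee'⟩ := hD D v' e he (ε / 2) (half_pos hε)
      refine ⟨n, fun _ => ⟨e', he', ?_⟩⟩
      calc ‖g - e'‖ = ‖(g - e) + (e - e')‖ := by rw [sub_add_sub_cancel]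
        _ ≤ ‖g - e‖ + ‖e - e'‖ := norm_add_le _ _
        _ ≤ ε := by linarith
    · exact ⟨0, fun h => absurd h hg⟩
  choose nf hnf using key
  refine ⟨F.sup nf, fun g hg => ?_⟩
  obtain ⟨e, he, hge⟩ := hnf g hg
  refine ⟨e, ?_, hge⟩
  refine (StarAlgebra.adjoin_le ?_ :
    StarAlgebra.adjoin ℂ {a : D | ∃ k, k < nf g ∧ a = v' k} ≤ _) he
  rintro x ⟨k, hk, rfl⟩
  exact StarAlgebra.subset_adjoin ℂ _ ⟨k, lt_of_lt_of_le hk (Finset.le_sup hg), rfl⟩

end Pool.Agent.FT
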