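import Pool.Agent.Lib.FT.SpecF

/-!
# C44, F1: Stone-Weierstrass for the copy of `C([0,1]^d)` (helper53)
-/

set_option autoImplicit false

open MeasureTheory
open scoped CStarAlgebra

noncomputable section

namespace Pool.Agent.FT

theorem pSW : S_SW := by
  intro d D _ ι E hE hx
  have hcont : Continuous ι := map_continuous ι
  let F : StarSubalgebra ℂ C(Cube d, ℂ) := E.comap ι
  have hmem : ∀ f, f ∈ F ↔ ι f ∈ E := fun f => Iff.rfl
  have hFc : IsClosed (F : Set C(Cube d, ℂ)) := hE.preimage hcont
  have hsep : F.SeparatesPoints := by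
    intro x y hxy
    obtain ⟨m, hm⟩ := Function.ne_iff.1 hxy
    refine ⟨xc m, ⟨xc m, (hmem _).2 (hx m), rfl⟩, ?_⟩
    intro h
    apply hm
    have h' : ((x m : ℝ) : ℂ) = ((y m : ℝ) : ℂ) := h
    exact Subtype.ext (Complex.ofReal_injective h')
  have h := ContinuousMap.starSubalgebra_topologicalClosure_eq_top_of_separatesPoints F hsep
  have hF : F = ⊤ := by
    rw [← h]
    refine le_antisymm (StarSubalgebra.le_topologicalClosure F) ?_
    exact StarSubalgebra.topologicalClosure_minimal le_rfl hFc
  rintro _ ⟨f, rfl⟩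
  have : f ∈ F := by rw [hF]; trivial
  exact this

end Pool.Agent.FT
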