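import Pool.Agent.Lib.FT.SpecF

/-!
# C44, F3: tails of systems (helper53)
-/

set_option autoImplicit false

open MeasureTheory

noncomputable section

namespace Pool.Agent.FT

private theorem tail_reindex {A : Type*} [CStarAlgebra A] {φ : A →ₗ[ℂ] ℂ} {I I' : Type*}
    {S : I → StarSubalgebra ℂ A} {S' : I' → StarSubalgebra ℂ A} (h : IsFree φ S) (g : I' → I)
    (hg : Function.Injective g) (hS : ∀ i, S' i ≤ S (g i)) : IsFree φ S' := by
  intro l hl hc hm
  have h1 := h (l.map fun p => (g p.1, p.2)) (by simpa using hl) (by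
    rw [List.map_map]
    have e : (Prod.fst ∘ fun p : I' × A => (g p.1, p.2)) = g ∘ Prod.fst := rfl
    rw [e, ← List.map_map, List.isChain_map]
    exact hc.imp fun a b hab h => hab (hg h)) (by
    intro p hp
    rw [List.mem_map] at hp
    obtain ⟨q, hq, rfl⟩ := hp
    exact ⟨hS _ (hm q hq).1, (hm q hq).2⟩)
  rw [List.map_map] at h1
  exact h1

theorem pTAIL : S_TAIL := by
  intro d D _ τ ι v h M
  refine ⟨⟨h.tr, h.leb, fun k => h.sa _, fun k => h.sq _, fun k => h.tz _, ?_⟩, ?_⟩
  · refine tail_reindex h.free (Option.map fun k => M + k)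
      (Option.map_injective (add_right_injective M)) ?_
    intro o
    cases o with
    | none =>
      simp only [Option.map_none, Option.elim_none]
      exact le_rfl
    | some k =>
      simp only [Option.map_some, Option.elim_some]
      exact le_rfl
  · refine StarSubalgebra.topologicalClosure_mono (sup_le_sup le_rfl ?_)
    refine StarAlgebra.adjoin_mono ?_
    rintro x ⟨k, -, rfl⟩
    exact ⟨M + k, Nat.le_add_right _ _, rfl⟩

end Pool.Agent.FT
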